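import Pool.Agent.Y6.M.Stm

/-! Project EM: the mode `x m` is almost constant during a step of the cascade. -/

open Set Filter Topology
open scoped ComplexConjugate

set_option autoImplicit false

namespace Pool.Agent.Y672.EM.FRZ

open Pool.Agent.Y6.M

variable {α : ℕ → ℝ} {G : ℕ → ℂ} {b d : ℕ → ℝ}

lemma al_ge (h : Chn α G b d) (n : ℕ) : 10 ^ 40 ≤ α n := by
  induction n with
  | zero => exact h.A0
  | succ n ih =>
    rw [h.step]
    have h1 : (1 : ℝ) ≤ α n := le_trans (by norm_num) ih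
    exact ih.trans (le_self_pow₀ h1 (by omega))

lemma al_one (h : Chn α G b d) (n : ℕ) : 1 ≤ α n := le_trans (by norm_num) (al_ge h n)

lemma al_pos (h : Chn α G b d) (n : ℕ) : 0 < α n := lt_of_lt_of_le one_pos (al_one h n)

lemma Gd (h : Chn α G b d) (n : ℕ) : ‖G n‖ * d n ≤ 3 * α n :=
  (mul_le_mul_of_nonneg_left (h.db n) (norm_nonneg _)).trans (h.hi n)

lemma b_pos (h : Chn α G b d) (n : ℕ) : 0 < b n := (h.dpos n).trans_le (h.db n)

lemma pow7 (h : Chn α G b d) (m k : ℕ) : (α m ^ (k + 7))⁻¹ ≤ (α m ^ 7)⁻¹ := by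
  apply inv_anti₀ (pow_pos (al_pos h m) _)
  exact pow_le_pow_right₀ (al_one h m) (by omega)

lemma drain (h : Chn α G b d) (m : ℕ) {y x : ℂ} (hy : ‖y‖ ≤ Uth α (m + 1))
    (hx : ‖x‖ ≤ Uth α (m + 1)) :
    ‖conj (G m) * (b m + d m : ℝ) * y * conj x‖ ≤ 6 * (α m ^ 7)⁻¹ := by
  have hb := b_pos h m
  have hd := h.dpos m
  have ha := al_pos h m
  rw [norm_mul, norm_mul, norm_mul, RCLike.norm_conj, RCLike.norm_conj, Complex.norm_real,
    Real.norm_of_nonneg (by positivity)]
  have h1 : ‖G m‖ * (b m + d m) ≤ 6 * α m := by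
    have := h.hi m
    have := Gd h m
    linarith
  have hU : 0 ≤ Uth α (m + 1) := by unfold Uth; positivity
  have h2 : ‖y‖ * ‖x‖ ≤ (α (m + 1))⁻¹ := by
    calc ‖y‖ * ‖x‖ ≤ Uth α (m + 1) * Uth α (m + 1) :=
          mul_le_mul hy hx (norm_nonneg _) hU
      _ = (α (m + 1))⁻¹ := by
          unfold Uth
          rw [← mul_inv, Real.mul_self_sqrt (al_pos h (m + 1)).le]
  have h3 : α m * (α (m + 1))⁻¹ ≤ (α m ^ 7)⁻¹ := by
    rw [h.step, show 2 * m + 8 = (2 * m + 7) + 1 by ring, pow_succ, mul_inv_rev,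
      mul_inv_cancel_left₀ ha.ne']
    exact pow7 h m (2 * m)
  calc ‖G m‖ * (b m + d m) * ‖y‖ * ‖x‖ = (‖G m‖ * (b m + d m)) * (‖y‖ * ‖x‖) := by ring
    _ ≤ (6 * α m) * (α (m + 1))⁻¹ := mul_le_mul h1 h2 (by positivity) (by positivity)
    _ = 6 * (α m * (α (m + 1))⁻¹) := by ring
    _ ≤ 6 * (α m ^ 7)⁻¹ := by linarith

lemma phi (h : Chn α G b d) (m : ℕ) : φc α m ≤ (α m ^ 7)⁻¹ := by
  unfold φc
  rw [show 4 * m + 8 = (4 * m + 1) + 7 by ring]
  exact pow7 h m _

/-- Gronwall -/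
lemma gron {E : Type} [NormedAddCommGroup E] [NormedSpace ℝ E] {v v' : ℝ → E} {s e K ε : ℝ}
    (hK : 0 < K) (hse : K * (e - s) ≤ 1) (hε : 0 ≤ ε)
    (hv : ∀ t ∈ Icc s e, HasDerivWithinAt v (v' t) (Icc s e) t)
    (hb : ∀ t ∈ Icc s e, ‖v' t‖ ≤ K * ‖v t - v s‖ + ε) :
    ∀ t ∈ Icc s e, ‖v t - v s‖ ≤ 2 * ε * (e - s) := by
  intro t ht
  have h1 := norm_le_gronwallBound_of_norm_deriv_right_le (f := fun t => v t - v s) (f' := v')
    (δ := 0) (K := K) (ε := ε) (a := s) (b := e)
    (fun t ht => ((hv t ht).continuousWithinAt).sub continuousWithinAt_const)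
    (fun t ht => by
      have h2 : HasDerivWithinAt v (v' t) (Ici t) t :=
        (hv t ⟨ht.1, ht.2.le⟩).mono_of_mem_nhdsWithin (Icc_mem_nhdsGE_of_mem ht)
      simpa using h2.sub_const (v s))
    (by simp) (fun t ht => hb t ⟨ht.1, ht.2.le⟩) t ht
  refine h1.trans ?_
  rw [gronwallBound_of_K_ne_0 hK.ne']
  simp only [zero_mul, zero_add]
  have h3 : 0 ≤ K * (t - s) := mul_nonneg hK.le (by linarith [ht.1])
  have h4 : K * (t - s) ≤ K * (e - s) := mul_le_mul_of_nonneg_left (by linarith [ht.2]) hK.le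
  have h5 := Real.abs_exp_sub_one_le (x := K * (t - s)) (by
    rw [abs_of_nonneg h3]
    linarith)
  rw [abs_of_nonneg h3] at h5
  have h6 : Real.exp (K * (t - s)) - 1 ≤ 2 * (K * (e - s)) :=
    (le_abs_self _).trans (h5.trans (by linarith))
  calc ε / K * (Real.exp (K * (t - s)) - 1) ≤ ε / K * (2 * (K * (e - s))) :=
        mul_le_mul_of_nonneg_left h6 (by positivity)
    _ = 2 * ε * (e - s) := by field_simp

/-- the last comparison -/
lemma fin7 {a P : ℝ} (ha : 10 ^ 40 ≤ a) (hP : (√a)⁻¹ ≤ P) : 300 * (a ^ 7)⁻¹ ≤ P := by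
  have ha1 : 1 ≤ a := le_trans (by norm_num) ha
  have ha0 : 0 < a := by linarith
  refine le_trans ?_ hP
  have h1 : √a ≤ a := by
    rw [Real.sqrt_le_left (by linarith)]
    nlinarith
  have h2 : a⁻¹ ≤ (√a)⁻¹ := inv_anti₀ (Real.sqrt_pos.2 ha0) h1
  refine le_trans ?_ h2
  have h3 : 300 * a ≤ a ^ 7 := by
    have h4 : a ^ 2 ≤ a ^ 7 := pow_le_pow_right₀ ha1 (by norm_num)
    have h5 : (300 : ℝ) ≤ a := le_trans (by norm_num) ha
    nlinarith
  rw [← div_eq_mul_inv, div_le_iff₀ (by positivity), ← div_eq_inv_mul, le_div_iff₀ ha0]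
  exact h3

theorem t_FRZ : S_FRZ := by
  intro α G b d h m s e x y f g hse he hs hU hy htop
  have ha := al_ge h m
  have ha0 := al_pos h m
  obtain ⟨P, hP⟩ : ∃ P, P = ‖x m s‖ := ⟨_, rfl⟩
  rw [← hP] at hU ⊢
  have hP0 : 0 ≤ P := hP ▸ norm_nonneg _
  have hP7 : 300 * (α m ^ 7)⁻¹ ≤ P := fin7 ha hU
  obtain ⟨κ, hκ⟩ : ∃ κ, κ = (α m ^ 7)⁻¹ := ⟨_, rfl⟩
  have hκ0 : 0 < κ := by rw [hκ]; positivity
  rw [← hκ] at hP7
  have hss : s ∈ Icc s e := ⟨le_rfl, hse⟩
  cases m with
  | zero =>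
    have hδ : δc α 0 ≤ 1 := by
      unfold δc
      apply inv_le_one_of_one_le₀
      rw [Real.one_le_sqrt, Real.one_le_sqrt]
      exact al_one h 0
    have hlen : e - s ≤ 2 := by linarith
    intro t ht
    have h1 := Convex.norm_image_sub_le_of_norm_hasDerivWithin_le (f := x 0) (C := 7 * κ)
      (s := Icc s e) (x := s) (y := t) (fun t ht => hs.dx 0 le_rfl t ht) (fun t ht => by
        have e1 : cX G b d (fun m => x m t) (fun m => y m t) 0 =
          -(conj (G 0) * (b 0 + d 0 : ℝ) * y 0 t * conj (x 1 t)) := rfl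
        rw [e1]
        refine (norm_add_le _ _).trans ?_
        rw [norm_neg]
        have h2 := drain h 0 (htop t ht).2 (htop t ht).1
        have h3 := (hs.pf 0 t ht).trans (phi h 0)
        rw [← hκ] at h2 h3
        linarith) (convex_Icc s e) hss ht
    refine h1.trans ?_
    rw [Real.norm_of_nonneg (by linarith [ht.1])]
    have : 7 * κ * (t - s) ≤ 7 * κ * 2 := mul_le_mul_of_nonneg_left (by linarith [ht.2])
      (by positivity)
    linarith
  | succ n =>
    have hA := al_ge h n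
    have hA1 := al_one h n
    have hA0 := al_pos h n
    obtain ⟨A, hAe⟩ : ∃ A, A = α n := ⟨_, rfl⟩
    rw [← hAe] at hA hA1 hA0
    have hδ : δc α (n + 1) ≤ (A ^ 2)⁻¹ := by
      unfold δc
      apply inv_anti₀ (by positivity)
      rw [h.step, ← hAe]
      apply Real.le_sqrt_of_sq_le
      apply Real.le_sqrt_of_sq_le
      rw [← pow_mul, ← pow_mul]
      exact pow_le_pow_right₀ hA1 (by omega)
    have hlen : e - s ≤ 2 * (A ^ 2)⁻¹ := by linarith
    have hKlen : 3 * A * (e - s) ≤ 6 * A⁻¹ := by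
      calc 3 * A * (e - s) ≤ 3 * A * (2 * (A ^ 2)⁻¹) :=
            mul_le_mul_of_nonneg_left hlen (by positivity)
        _ = 6 * A⁻¹ := by field_simp; ring
    have hAinv : A⁻¹ ≤ 1 / 1000 := by
      rw [inv_le_comm₀ hA0 (by norm_num)]
      refine le_trans ?_ hA
      norm_num
    have hA2 : (A ^ 2)⁻¹ ≤ 1 := inv_le_one_of_one_le₀ (one_le_pow₀ hA1)
    have hyn : ‖y n s‖ ≤ P := hP ▸ hy n rfl
    intro t ht
    have key := gron (v := fun t => (x (n + 1) t, y n t))
      (v' := fun t => (cX G b d (fun m => x m t) (fun m => y m t) (n + 1) + f (n + 1) t,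
        cY G d (fun m => x m t) n + g n t)) (s := s) (e := e) (K := 3 * A)
      (ε := 3 * A * P + 7 * κ) (by positivity) (by linarith) (by positivity)
      (fun t ht => (hs.dx (n + 1) le_rfl t ht).prodMk (hs.dy n (Nat.lt_succ_self n) t ht))
      (fun t ht => by
        have hv : ‖(x (n + 1) t, y n t)‖ ≤
            ‖((x (n + 1) t, y n t) : ℂ × ℂ) - (x (n + 1) s, y n s)‖ + P := by
          have h1 : ((x (n + 1) t, y n t) : ℂ × ℂ) =
            (((x (n + 1) t, y n t) : ℂ × ℂ) - (x (n + 1) s, y n s)) + (x (n + 1) s, y n s) := by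
            rw [sub_add_cancel]
          conv_lhs => rw [h1]
          refine (norm_add_le _ _).trans ?_
          have h2 : ‖((x (n + 1) s, y n s) : ℂ × ℂ)‖ ≤ P := by
            rw [Prod.norm_def]
            exact max_le hP.symm.le hyn
          linarith
        have hxv : ‖x (n + 1) t‖ ≤ ‖((x (n + 1) t, y n t) : ℂ × ℂ)‖ := le_max_left _ _
        have hyv : ‖y n t‖ ≤ ‖((x (n + 1) t, y n t) : ℂ × ℂ)‖ := le_max_right _ _
        have hxn : ‖x n t‖ ≤ 1 := (hs.one n t ht).1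
        have hbn := b_pos h n
        have hdn := h.dpos n
        have hGb := h.hi n
        have hGd := Gd h n
        rw [← hAe] at hGb hGd
        have b1 : ‖cX G b d (fun m => x m t) (fun m => y m t) (n + 1) + f (n + 1) t‖ ≤
            3 * A * ‖y n t‖ + 7 * κ := by
          have e1 : cX G b d (fun m => x m t) (fun m => y m t) (n + 1) =
            conj (G n) * (b n : ℝ) * y n t * conj (x n t) -
            conj (G (n + 1)) * (b (n + 1) + d (n + 1) : ℝ) * y (n + 1) t *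
              conj (x (n + 2) t) := rfl
          rw [e1]
          refine (norm_add_le _ _).trans ?_
          have h2 := drain h (n + 1) (htop t ht).2 (htop t ht).1
          have h3 := (hs.pf (n + 1) t ht).trans (phi h (n + 1))
          rw [← hκ] at h2 h3
          have h4 : ‖conj (G n) * (b n : ℝ) * y n t * conj (x n t)‖ ≤ 3 * A * ‖y n t‖ := by
            rw [norm_mul, norm_mul, norm_mul, RCLike.norm_conj, RCLike.norm_conj,
              Complex.norm_real, Real.norm_of_nonneg hbn.le]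
            calc ‖G n‖ * b n * ‖y n t‖ * ‖x n t‖ ≤ ‖G n‖ * b n * ‖y n t‖ * 1 :=
                  mul_le_mul_of_nonneg_left hxn (by positivity)
              _ = ‖G n‖ * b n * ‖y n t‖ := mul_one _
              _ ≤ 3 * A * ‖y n t‖ := mul_le_mul_of_nonneg_right hGb (norm_nonneg _)
          have h5 := norm_sub_le (conj (G n) * (b n : ℝ) * y n t * conj (x n t))
            (conj (G (n + 1)) * (b (n + 1) + d (n + 1) : ℝ) * y (n + 1) t *
              conj (x (n + 2) t))
          linarith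
        have b2 : ‖cY G d (fun m => x m t) n + g n t‖ ≤ 3 * A * ‖x (n + 1) t‖ + 7 * κ := by
          have e1 : cY G d (fun m => x m t) n = G n * (d n : ℝ) * x n t * x (n + 1) t := rfl
          rw [e1]
          refine (norm_add_le _ _).trans ?_
          have h3 := (hs.pg n t ht).trans (phi h (n + 1))
          rw [← hκ] at h3
          have h4 : ‖G n * (d n : ℝ) * x n t * x (n + 1) t‖ ≤ 3 * A * ‖x (n + 1) t‖ := by
            rw [norm_mul, norm_mul, norm_mul, Complex.norm_real, Real.norm_of_nonneg hdn.le]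
            calc ‖G n‖ * d n * ‖x n t‖ * ‖x (n + 1) t‖ ≤ ‖G n‖ * d n * 1 * ‖x (n + 1) t‖ := by
                  gcongr
              _ = ‖G n‖ * d n * ‖x (n + 1) t‖ := by rw [mul_one]
              _ ≤ 3 * A * ‖x (n + 1) t‖ := mul_le_mul_of_nonneg_right hGd (norm_nonneg _)
          linarith
        have c1 : 3 * A * ‖y n t‖ ≤ 3 * A * (‖((x (n + 1) t, y n t) : ℂ × ℂ) -
            (x (n + 1) s, y n s)‖ + P) :=
          mul_le_mul_of_nonneg_left (hyv.trans hv) (by positivity)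
        have c2 : 3 * A * ‖x (n + 1) t‖ ≤ 3 * A * (‖((x (n + 1) t, y n t) : ℂ × ℂ) -
            (x (n + 1) s, y n s)‖ + P) :=
          mul_le_mul_of_nonneg_left (hxv.trans hv) (by positivity)
        rw [Prod.norm_def]
        refine max_le ?_ ?_
        · refine b1.trans ?_
          linarith
        · refine b2.trans ?_
          linarith) t ht
    have hx : ‖x (n + 1) t - x (n + 1) s‖ ≤ ‖((x (n + 1) t, y n t) : ℂ × ℂ) -
        (x (n + 1) s, y n s)‖ := le_max_left _ _
    refine hx.trans (key.trans ?_)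
    have d1 : 3 * A * (e - s) ≤ 1 / 100 := by linarith
    have d2 : 3 * A * (e - s) * P ≤ 1 / 100 * P := mul_le_mul_of_nonneg_right d1 hP0
    have d3 : κ * (e - s) ≤ κ * 2 := mul_le_mul_of_nonneg_left (by linarith) hκ0.le
    nlinarith

end Pool.Agent.Y672.EM.FRZ
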